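import Pool.Agent.Q260.AH.Da

/-!
# Project AH, job CR: pairs across a point
-/

set_option autoImplicit false

namespace Pool.Agent.Q224.AH

open MeasureTheory Filter Topology Set Pool.Agent.Q260.AH

theorem cls {ι : Type} {A A' : Finset ι} {w g : ι → ℝ} {M t : ℝ} (hw : ∀ i, 0 ≤ w i)
    (h : ∑ i ∈ A, w i * (1 / (1 + (g i - t) ^ 2)) ≤ M) (hA : A' ⊆ A)
    (h1 : ∀ i ∈ A', |g i - t| ≤ 1) : ∑ i ∈ A', w i ≤ 2 * M := by
  calc ∑ i ∈ A', w i ≤ ∑ i ∈ A', 2 * (w i * (1 / (1 + (g i - t) ^ 2))) := by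
        refine Finset.sum_le_sum fun i hi => ?_
        have e1 : (g i - t) ^ 2 ≤ 1 := by
          have := h1 i hi
          rw [← sq_abs]
          exact pow_le_one₀ (abs_nonneg _) this
        have e2 : 1 / 2 ≤ 1 / (1 + (g i - t) ^ 2) := by
          apply one_div_le_one_div_of_le
          · positivity
          · linarith
        have e3 := mul_le_mul_of_nonneg_left e2 (hw i)
        linarith
    _ ≤ ∑ i ∈ A, 2 * (w i * (1 / (1 + (g i - t) ^ 2))) := by
        refine Finset.sum_le_sum_of_subset_of_nonneg hA fun i _ _ => ?_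
        have := hw i
        positivity
    _ = 2 * ∑ i ∈ A, w i * (1 / (1 + (g i - t) ^ 2)) := by rw [Finset.mul_sum]
    _ ≤ 2 * M := by linarith

/-- summation over unit intervals -/
theorem unitsum {ι : Type} {A : Finset ι} {w a F : ι → ℝ} {f : ℕ → ℝ} {K : ℝ} {N : ℕ}
    (hw : ∀ i, 0 ≤ w i) (hN : ∀ i ∈ A, ⌊a i⌋₊ < N) (hf : ∀ n, 0 ≤ f n)
    (hF : ∀ i ∈ A, F i ≤ f ⌊a i⌋₊) (hK : ∀ n, ∑ i ∈ A with ⌊a i⌋₊ = n, w i ≤ K) :
    ∑ i ∈ A, w i * F i ≤ K * ∑ n ∈ Finset.range N, f n := by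
  rw [← Finset.sum_fiberwise_of_maps_to (s := A) (t := Finset.range N) (g := fun i => ⌊a i⌋₊)
    (fun i hi => Finset.mem_range.2 (hN i hi)), Finset.mul_sum]
  refine Finset.sum_le_sum fun n _ => ?_
  calc ∑ i ∈ A with ⌊a i⌋₊ = n, w i * F i ≤ ∑ i ∈ A with ⌊a i⌋₊ = n, w i * f n := by
        refine Finset.sum_le_sum fun i hi => ?_
        obtain ⟨h1, h2⟩ := Finset.mem_filter.1 hi
        rw [← h2]
        exact mul_le_mul_of_nonneg_left (hF i h1) (hw i)
    _ = (∑ i ∈ A with ⌊a i⌋₊ = n, w i) * f n := by rw [Finset.sum_mul]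
    _ ≤ K * f n := mul_le_mul_of_nonneg_right (hK n) (hf n)

theorem tele {d : ℝ} (hd : 0 ≤ d) (n : ℕ) :
    ∑ m ∈ Finset.range (n + 1), 1 / (1 + d + m) ^ 2 ≤ 2 / (1 + d) - 1 / (d + n + 1) := by
  induction n with
  | zero =>
    rw [Finset.sum_range_one]
    have h1 : 1 / (1 + d) ^ 2 ≤ 1 / (1 + d) := by
      apply one_div_le_one_div_of_le (by linarith)
      nlinarith
    have e : 2 / (1 + d) - 1 / (d + ((0 : ℕ) : ℝ) + 1) = 1 / (1 + d) := by
      push_cast
      have : (1 + d) ≠ 0 := by positivity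
      have : (d + 0 + 1) ≠ 0 := by positivity
      field_simp
      ring
    rw [e]
    push_cast
    rw [add_zero]
    exact h1
  | succ n ih =>
    rw [Finset.sum_range_succ]
    have hn : (0 : ℝ) ≤ n := Nat.cast_nonneg n
    have h1 : 1 / (1 + d + ((n + 1 : ℕ) : ℝ)) ^ 2 ≤
        1 / (d + n + 1) - 1 / (d + ((n + 1 : ℕ) : ℝ) + 1) := by
      push_cast
      have e : 1 / (d + n + 1) - 1 / (d + (n + 1) + 1) = 1 / ((d + n + 1) * (d + (n + 1) + 1)) := by
        have : (d + n + 1) ≠ 0 := by positivity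
        have : (d + (n + 1) + 1) ≠ 0 := by positivity
        field_simp
        ring
      rw [e]
      apply one_div_le_one_div_of_le
      · positivity
      · have e2 : (1 + d + (n + 1 : ℝ)) ^ 2 = (d + n + 1) * (d + (n + 1) + 1) + (d + n + 2) := by
          ring
        rw [e2]
        linarith
    linarith

theorem sq_bd {x : ℝ} (hx : 0 ≤ x) : 1 / (1 + x ^ 2) ≤ 2 * (1 / (1 + x) ^ 2) := by
  rw [mul_one_div, div_le_div_iff₀ (by positivity) (by positivity)]
  have : (1 - x) ^ 2 = 1 - 2 * x + x ^ 2 := by ring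
  have h2 := sq_nonneg (1 - x)
  nlinarith

theorem inner {d : ℝ} (hd : 0 ≤ d) (N : ℕ) :
    ∑ m ∈ Finset.range (N + 1), 1 / (1 + ((m : ℝ) + d) ^ 2) ≤ 4 * (1 / (1 + d)) := by
  calc ∑ m ∈ Finset.range (N + 1), 1 / (1 + ((m : ℝ) + d) ^ 2) ≤
      ∑ m ∈ Finset.range (N + 1), 2 * (1 / (1 + d + m) ^ 2) := by
        refine Finset.sum_le_sum fun m _ => ?_
        have hm : (0 : ℝ) ≤ m := Nat.cast_nonneg m
        have := sq_bd (x := (m : ℝ) + d) (by linarith)
        have e : 1 + ((m : ℝ) + d) = 1 + d + m := by ring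
        rw [e] at this
        exact this
    _ = 2 * ∑ m ∈ Finset.range (N + 1), 1 / (1 + d + m) ^ 2 := by rw [Finset.mul_sum]
    _ ≤ 2 * (2 / (1 + d) - 1 / (d + N + 1)) := by
        have := tele hd N
        linarith
    _ ≤ 4 * (1 / (1 + d)) := by
        have h1 : 0 ≤ 1 / (d + N + 1) := by positivity
        have h2 : 2 / (1 + d) = 2 * (1 / (1 + d)) := by ring
        rw [h2]
        linarith

theorem harm {T : ℝ} (hT : 2 ≤ T) :
    ∑ n ∈ Finset.range (⌊T⌋₊ + 1), 1 / (1 + (n : ℝ)) ≤ 4 * Real.log T := by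
  have h1 : ∑ n ∈ Finset.range (⌊T⌋₊ + 1), 1 / (1 + (n : ℝ)) = ((harmonic (⌊T⌋₊ + 1) : ℚ) : ℝ) := by
    unfold harmonic
    push_cast
    refine Finset.sum_congr rfl fun n _ => ?_
    rw [one_div, add_comm]
  rw [h1]
  have h2 := harmonic_le_one_add_log (⌊T⌋₊ + 1)
  have h3 : Real.log ((⌊T⌋₊ + 1 : ℕ) : ℝ) ≤ Real.log (T ^ 2) := by
    apply Real.log_le_log (by positivity)
    push_cast
    have h4 : (⌊T⌋₊ : ℝ) ≤ T := Nat.floor_le (by linarith)
    nlinarith
  rw [Real.log_pow] at h3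
  have h5 : Real.log 2 ≤ Real.log T := Real.log_le_log (by norm_num) hT
  have h6 := Real.log_two_gt_d9
  push_cast at h2 h3
  linarith

theorem t_CR : S_CR := by
  refine ⟨64, by norm_num, ?_⟩
  intro ι A B w g M T t0 hT hM h0 h0T hw hA hB hMA hMB
  have hT0 : 0 ≤ T := by linarith
  have hN : ∀ x : ℝ, x ≤ T → ⌊x⌋₊ < ⌊T⌋₊ + 1 := fun x hx =>
    Nat.lt_succ_of_le (Nat.floor_le_floor hx)
  -- the inner sums
  have hin : ∀ i ∈ A, ∑ j ∈ B, w j * (1 / (1 + (g i - g j) ^ 2)) ≤
      2 * M * (4 * (1 / (1 + (t0 - g i)))) := by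
    intro i hi
    obtain ⟨hi1, hi2⟩ := hA i hi
    have hd : 0 ≤ t0 - g i := by linarith
    have h1 := unitsum (A := B) (w := w) (a := fun j => g j - t0)
      (F := fun j => 1 / (1 + (g i - g j) ^ 2)) (f := fun m => 1 / (1 + ((m : ℝ) + (t0 - g i)) ^ 2))
      (K := 2 * M) (N := ⌊T⌋₊ + 1) hw (fun j hj => hN _ (by linarith [(hB j hj).2]))
      (fun n => by positivity) (fun j hj => by
        obtain ⟨hj1, hj2⟩ := hB j hj
        have e1 : (⌊g j - t0⌋₊ : ℝ) ≤ g j - t0 := Nat.floor_le (by linarith)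
        have e0 : (0 : ℝ) ≤ ⌊g j - t0⌋₊ := Nat.cast_nonneg _
        apply one_div_le_one_div_of_le (by positivity)
        have e2 : ((⌊g j - t0⌋₊ : ℝ) + (t0 - g i)) ^ 2 ≤ (g j - g i) ^ 2 :=
          pow_le_pow_left₀ (by linarith) (by linarith) 2
        have e3 : (g i - g j) ^ 2 = (g j - g i) ^ 2 := by ring
        linarith) (fun n => by
        rcases Finset.eq_empty_or_nonempty (B.filter (fun j => ⌊g j - t0⌋₊ = n)) with he | ⟨j, hj⟩
        · rw [he, Finset.sum_empty]
          linarith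
        · obtain ⟨hj1, hj2⟩ := Finset.mem_filter.1 hj
          obtain ⟨hb1, hb2⟩ := hB j hj1
          have e1 : (n : ℝ) ≤ g j - t0 := by
            rw [← hj2]
            exact Nat.floor_le (by linarith)
          have e0 : (0 : ℝ) ≤ n := Nat.cast_nonneg _
          refine cls (t := t0 + n) hw (hMB _ ⟨by linarith, by linarith⟩)
            (Finset.filter_subset _ _) fun j' hj' => ?_
          obtain ⟨hc1, hc2⟩ := Finset.mem_filter.1 hj'
          obtain ⟨hd1, hd2⟩ := hB j' hc1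
          have f1 : (n : ℝ) ≤ g j' - t0 := by
            rw [← hc2]
            exact Nat.floor_le (by linarith)
          have f2 : g j' - t0 < n + 1 := by
            rw [← hc2]
            exact Nat.lt_floor_add_one _
          rw [abs_le]
          constructor <;> linarith)
    exact h1.trans (mul_le_mul_of_nonneg_left (inner hd _) (by linarith))
  have hout := unitsum (A := A) (w := w) (a := fun i => t0 - g i)
      (F := fun i => 1 / (1 + (t0 - g i))) (f := fun n => 1 / (1 + (n : ℝ)))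
      (K := 2 * M) (N := ⌊T⌋₊ + 1) hw (fun j hj => hN _ (by linarith [(hA j hj).1]))
      (fun n => by positivity) (fun j hj => by
        obtain ⟨hj1, hj2⟩ := hA j hj
        have e1 : (⌊t0 - g j⌋₊ : ℝ) ≤ t0 - g j := Nat.floor_le (by linarith)
        have e0 : (0 : ℝ) ≤ ⌊t0 - g j⌋₊ := Nat.cast_nonneg _
        apply one_div_le_one_div_of_le (by positivity)
        linarith) (fun n => by
        rcases Finset.eq_empty_or_nonempty (A.filter (fun j => ⌊t0 - g j⌋₊ = n)) with he | ⟨j, hj⟩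
        · rw [he, Finset.sum_empty]
          linarith
        · obtain ⟨hj1, hj2⟩ := Finset.mem_filter.1 hj
          obtain ⟨hb1, hb2⟩ := hA j hj1
          have e1 : (n : ℝ) ≤ t0 - g j := by
            rw [← hj2]
            exact Nat.floor_le (by linarith)
          have e0 : (0 : ℝ) ≤ n := Nat.cast_nonneg _
          refine cls (t := t0 - n) hw (hMA _ ⟨by linarith, by linarith⟩)
            (Finset.filter_subset _ _) fun j' hj' => ?_
          obtain ⟨hc1, hc2⟩ := Finset.mem_filter.1 hj'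
          obtain ⟨hd1, hd2⟩ := hA j' hc1
          have f1 : (n : ℝ) ≤ t0 - g j' := by
            rw [← hc2]
            exact Nat.floor_le (by linarith)
          have f2 : t0 - g j' < n + 1 := by
            rw [← hc2]
            exact Nat.lt_floor_add_one _
          rw [abs_le]
          constructor <;> linarith)
  have hh := harm hT
  calc ∑ i ∈ A, ∑ j ∈ B, w i * w j * (1 / (1 + (g i - g j) ^ 2)) =
      ∑ i ∈ A, w i * ∑ j ∈ B, w j * (1 / (1 + (g i - g j) ^ 2)) := by
        refine Finset.sum_congr rfl fun i _ => ?_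
        rw [Finset.mul_sum]
        exact Finset.sum_congr rfl fun j _ => by ring
    _ ≤ ∑ i ∈ A, w i * (2 * M * (4 * (1 / (1 + (t0 - g i))))) :=
        Finset.sum_le_sum fun i hi => mul_le_mul_of_nonneg_left (hin i hi) (hw i)
    _ = 8 * M * ∑ i ∈ A, w i * (1 / (1 + (t0 - g i))) := by
        rw [Finset.mul_sum]
        exact Finset.sum_congr rfl fun i _ => by ring
    _ ≤ 8 * M * (2 * M * ∑ n ∈ Finset.range (⌊T⌋₊ + 1), 1 / (1 + (n : ℝ))) :=
        mul_le_mul_of_nonneg_left hout (by linarith)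
    _ ≤ 8 * M * (2 * M * (4 * Real.log T)) := by
        apply mul_le_mul_of_nonneg_left _ (by linarith)
        exact mul_le_mul_of_nonneg_left hh (by linarith)
    _ = 64 * (M ^ 2 * Real.log T) := by ring

end Pool.Agent.Q224.AH
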