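import Pool.Agent.Q260.AH.Dg

/-!
# Project GW, job GBg: the block formula for the general weight
-/

set_option autoImplicit false

namespace Pool.Agent.Q224.AH

open MeasureTheory Filter Topology Set Pool.Agent.Q260.AH
open Pool.Agent.Y749.Rig (ZZ mm nT)
open Pool.Agent.Q260.GM (gd LL kk Dl L2psi kT ev_pos ev_L gd_cont gd_nonneg)

/-- the densities are continuous eventually -/
theorem gd_ev (hRH : RiemannHypothesis) (N : ℕ) : ∀ᶠ κ : ℝ in 𝓝[>] 0,
    (0 < κ ∧ 0 < LL κ) ∧ ∀ k : ℕ, k ≤ N → Continuous (gd κ (k + 1)) := by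
  filter_upwards [ev_pos, ev_L (4 * (N + 1))] with κ hκ hL
  have hLp : 0 < LL κ := lt_of_lt_of_le (by positivity) hL
  refine ⟨⟨hκ, hLp⟩, fun k hk => ?_⟩
  have hkN : (k : ℝ) ≤ N := by exact_mod_cast hk
  exact gd_cont hRH (by positivity) (by rw [div_le_iff₀ hLp]; linarith)

theorem gc_int {N : ℕ} {c : ℕ → ℝ} {κ : ℝ} (h : ∀ k : ℕ, k ≤ N → Continuous (gd κ (k + 1)))
    (p q : ℝ) : ∫ y in p..q, gc N c κ y = ∑ k ∈ Finset.range N, c k * ∫ y in p..q, gd κ (k + 1) y := by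
  unfold gc
  rw [intervalIntegral.integral_finsetSum]
  · refine Finset.sum_congr rfl fun k _ => ?_
    exact intervalIntegral.integral_const_mul _ _
  · intro k hk
    exact ((h k (Finset.mem_range.1 hk).le).const_mul (c k)).intervalIntegrable _ _

theorem apw_zero {w : ℝ → ℝ} {ε : ℝ} {N : ℕ} {c : ℕ → ℝ} (hA : Apw w ε N c) :
    |(∑ k ∈ Finset.range N, c k) - w 0| ≤ ε := by
  have h := hA 0 le_rfl
  simp only [mul_zero, neg_zero, Real.exp_zero, mul_one] at h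
  exact h

theorem t_GBg (h1 : S_BL) (h2 : S_KDg) : S_GBg := by
  intro hRH w R ε p q δ N c hw hε hε1 hA hp hpq hδ
  obtain ⟨M, hM⟩ : ∃ M : ℝ, M = ∑ k ∈ Finset.range N, |c k| := ⟨_, rfl⟩
  have hM0 : 0 ≤ M := by rw [hM]; exact Finset.sum_nonneg fun _ _ => abs_nonneg _
  have hδ' : 0 < δ / (2 * (1 + M)) := by positivity
  have e1 : ∀ᶠ κ : ℝ in 𝓝[>] 0, ∀ k ∈ Finset.range N,
      |(∫ y in p..q, gd κ (k + 1) y) - (κ / LL κ ^ 2 * (Real.pi / 2 *
        PB (Kc ((k + 1) / LL κ)) (p / κ) (q / κ)) - (q - p) / 4)| ≤ δ / (2 * (1 + M)) :=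
    (Filter.eventually_all_finset _).2 fun k _ =>
      h1 hRH (k + 1) p q _ (by positivity) hp hpq hδ'
  filter_upwards [e1, h1 hRH 1 p q (δ / 4) one_pos hp hpq (by positivity), gd_ev hRH N] with
    κ g1 g2 g3
  obtain ⟨⟨hκ, hL⟩, hc⟩ := g3
  have hpi := Real.pi_pos
  rw [gc_int hc]
  obtain ⟨Bk, hBk⟩ : ∃ Bk : ℕ → ℝ, Bk = fun k : ℕ => PB (Kc ((k + 1) / LL κ)) (p / κ) (q / κ) := ⟨_, rfl⟩
  obtain ⟨Ak, hAk⟩ : ∃ Ak : ℕ → ℝ, Ak = fun k : ℕ => ∫ y in p..q, gd κ (k + 1) y := ⟨_, rfl⟩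
  have g1' : ∀ k ∈ Finset.range N, |Ak k - (κ / LL κ ^ 2 * (Real.pi / 2 * Bk k) - (q - p) / 4)| ≤
      δ / (2 * (1 + M)) := by
    rw [hAk, hBk]
    exact g1
  -- the sum of the blocks
  have s1 : |(∑ k ∈ Finset.range N, c k * Ak k) - (κ / LL κ ^ 2 * (Real.pi / 2 *
      ∑ k ∈ Finset.range N, c k * Bk k) - (∑ k ∈ Finset.range N, c k) * ((q - p) / 4))| ≤ δ / 2 := by
    have e : (∑ k ∈ Finset.range N, c k * Ak k) - (κ / LL κ ^ 2 * (Real.pi / 2 *
      ∑ k ∈ Finset.range N, c k * Bk k) - (∑ k ∈ Finset.range N, c k) * ((q - p) / 4)) =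
      ∑ k ∈ Finset.range N, c k * (Ak k - (κ / LL κ ^ 2 * (Real.pi / 2 * Bk k) - (q - p) / 4)) := by
      rw [Finset.sum_mul, Finset.mul_sum, Finset.mul_sum, ← Finset.sum_sub_distrib,
        ← Finset.sum_sub_distrib]
      refine Finset.sum_congr rfl fun k _ => ?_
      ring
    rw [e]
    refine (Finset.abs_sum_le_sum_abs _ _).trans ?_
    calc ∑ k ∈ Finset.range N, |c k * (Ak k - (κ / LL κ ^ 2 * (Real.pi / 2 * Bk k) - (q - p) / 4))| ≤
          ∑ k ∈ Finset.range N, |c k| * (δ / (2 * (1 + M))) := by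
          refine Finset.sum_le_sum fun k hk => ?_
          rw [abs_mul]
          exact mul_le_mul_of_nonneg_left (g1' k hk) (abs_nonneg _)
      _ = M * (δ / (2 * (1 + M))) := by rw [← Finset.sum_mul, hM]
      _ ≤ δ / 2 := by
          rw [mul_div_assoc', div_le_div_iff₀ (by positivity) (by norm_num)]
          nlinarith
  have s2 := h2 (ZB (p / κ) (q / κ)) mm Complex.im w R ε (LL κ) N c hw hε hL hA
  have s3 : |κ / LL κ ^ 2 * (Real.pi / 2 * ∑ k ∈ Finset.range N, c k * Bk k) - BX w R κ p q| ≤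
      ε * (κ / LL κ ^ 2 * (Real.pi / 2 * PB (Kc (1 / LL κ)) (p / κ) (q / κ))) := by
    have e : κ / LL κ ^ 2 * (Real.pi / 2 * ∑ k ∈ Finset.range N, c k * Bk k) - BX w R κ p q =
        κ / LL κ ^ 2 * (Real.pi / 2) * ((∑ k ∈ Finset.range N, c k * Bk k) -
          PB (Kg w R (LL κ)) (p / κ) (q / κ)) := by
      unfold BX
      ring
    have hm : 0 ≤ κ / LL κ ^ 2 * (Real.pi / 2) := by positivity
    rw [e, abs_mul, abs_of_nonneg hm]
    have s4 : |(∑ k ∈ Finset.range N, c k * Bk k) - PB (Kg w R (LL κ)) (p / κ) (q / κ)| ≤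
        ε * PB (Kc (1 / LL κ)) (p / κ) (q / κ) := by
      rw [hBk]
      exact s2
    calc κ / LL κ ^ 2 * (Real.pi / 2) * |(∑ k ∈ Finset.range N, c k * Bk k) -
          PB (Kg w R (LL κ)) (p / κ) (q / κ)| ≤
          κ / LL κ ^ 2 * (Real.pi / 2) * (ε * PB (Kc (1 / LL κ)) (p / κ) (q / κ)) :=
          mul_le_mul_of_nonneg_left s4 hm
      _ = _ := by ring
  have s5 := apw_zero hA
  have hqp : 0 < q - p := by linarith
  have s6 : |(∑ k ∈ Finset.range N, c k) * ((q - p) / 4) - w 0 / 4 * (q - p)| ≤ ε * ((q - p) / 4) := by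
    have e : (∑ k ∈ Finset.range N, c k) * ((q - p) / 4) - w 0 / 4 * (q - p) =
        ((∑ k ∈ Finset.range N, c k) - w 0) * ((q - p) / 4) := by ring
    rw [e, abs_mul, abs_of_pos (by positivity : 0 < (q - p) / 4)]
    exact mul_le_mul_of_nonneg_right s5 (by positivity)
  have hg1 : Continuous (gd κ 1) := by
    have := hc 0 (Nat.zero_le _)
    simpa using this
  have s7 : ∫ y in p..q, (gd κ 1 y + 1) = (∫ y in p..q, gd κ 1 y) + (q - p) := by
    rw [intervalIntegral.integral_add (hg1.intervalIntegrable _ _)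
      (intervalIntegrable_const), intervalIntegral.integral_const, smul_eq_mul, mul_one]
  rw [s7]
  obtain ⟨X, hX⟩ : ∃ X : ℝ, X = κ / LL κ ^ 2 * (Real.pi / 2 * PB (Kc (1 / LL κ)) (p / κ) (q / κ)) :=
    ⟨_, rfl⟩
  rw [← hX] at g2 s3
  have s8 : ε * X ≤ ε * ((∫ y in p..q, gd κ 1 y) + (q - p) / 4) + δ / 4 := by
    have h3 : X ≤ (∫ y in p..q, gd κ 1 y) + (q - p) / 4 + δ / 4 := by
      have := (abs_le.1 g2).1
      linarith
    have h4 := mul_le_mul_of_nonneg_left h3 hε.le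
    have h5 : ε * (δ / 4) ≤ 1 * (δ / 4) := mul_le_mul_of_nonneg_right hε1 (by positivity)
    linarith
  have hAk2 : ∑ k ∈ Finset.range N, c k * ∫ y in p..q, gd κ (k + 1) y =
      ∑ k ∈ Finset.range N, c k * Ak k := by rw [hAk]
  rw [hAk2]
  have h6 : 0 < ε * (q - p) := by positivity
  rw [abs_le] at s1 s3 s6 ⊢
  constructor
  · linarith [s1.1, s3.1, s6.2]
  · linarith [s1.2, s3.2, s6.1]

end Pool.Agent.Q224.AH
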