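import Pool.Agent.Q260.AH.Da

/-!
# Project AH, job KD: positive definiteness
-/

set_option autoImplicit false

namespace Pool.Agent.Q224.AH

open MeasureTheory Filter Topology Set Pool.Agent.Q260.AH

/-- the square of the exponential sum -/
noncomputable def SS {ι : Type} (B : Finset ι) (w g : ι → ℝ) (t : ℝ) : ℝ :=
  (∑ i ∈ B, w i * Real.cos (t * g i)) ^ 2 + (∑ i ∈ B, w i * Real.sin (t * g i)) ^ 2

theorem SS_nonneg {ι : Type} (B : Finset ι) (w g : ι → ℝ) (t : ℝ) : 0 ≤ SS B w g t := by
  unfold SS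
  positivity

theorem SS_eq {ι : Type} (B : Finset ι) (w g : ι → ℝ) (t : ℝ) :
    SS B w g t = ∑ i ∈ B, ∑ j ∈ B, w i * w j * Real.cos (t * (g i - g j)) := by
  unfold SS
  rw [sq, sq, Finset.sum_mul_sum, Finset.sum_mul_sum, ← Finset.sum_add_distrib]
  refine Finset.sum_congr rfl fun i _ => ?_
  rw [← Finset.sum_add_distrib]
  refine Finset.sum_congr rfl fun j _ => ?_
  rw [mul_sub, Real.cos_sub]
  ring

theorem int_cos {e : ℝ → ℝ} (he : IntegrableOn e (Ioi 0)) (v : ℝ) :
    IntegrableOn (fun t => e t * Real.cos (t * v)) (Ioi 0) := by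
  refine Integrable.mul_bdd (c := 1) he ?_ ?_
  · exact (Real.continuous_cos.comp (continuous_id.mul continuous_const)).aestronglyMeasurable
  · exact ae_of_all _ fun t => by rw [Real.norm_eq_abs]; exact Real.abs_cos_le_one _

/-- the integrand of the sum over pairs -/
theorem mul_SS {ι : Type} (B : Finset ι) (w g : ι → ℝ) (e : ℝ → ℝ) (t : ℝ) :
    e t * SS B w g t = ∑ i ∈ B, ∑ j ∈ B, w i * w j * (e t * Real.cos (t * (g i - g j))) := by
  rw [SS_eq, Finset.mul_sum]
  refine Finset.sum_congr rfl fun i _ => ?_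
  rw [Finset.mul_sum]
  exact Finset.sum_congr rfl fun j _ => by ring

theorem int_SS {ι : Type} (B : Finset ι) (w g : ι → ℝ) {e : ℝ → ℝ} (he : IntegrableOn e (Ioi 0)) :
    IntegrableOn (fun t => e t * SS B w g t) (Ioi 0) := by
  simp only [mul_SS]
  refine integrable_finsetSum _ fun i _ => integrable_finsetSum _ fun j _ => ?_
  exact (int_cos he _).const_mul _

/-- sums over pairs of the cosine transform -/
theorem PK_int {ι : Type} (B : Finset ι) (w g : ι → ℝ) {e : ℝ → ℝ} (he : IntegrableOn e (Ioi 0))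
    {K : ℝ → ℝ} (hK : ∀ v, 2 * ∫ t in Ioi (0 : ℝ), e t * Real.cos (t * v) = K v) :
    PK B w g K = 2 * ∫ t in Ioi (0 : ℝ), e t * SS B w g t := by
  simp only [mul_SS]
  rw [integral_finsetSum _ (fun i _ => integrable_finsetSum _ fun j _ =>
    (int_cos he _).const_mul _)]
  unfold PK
  rw [Finset.mul_sum]
  refine Finset.sum_congr rfl fun i _ => ?_
  rw [integral_finsetSum _ (fun j _ => (int_cos he _).const_mul _), Finset.mul_sum]
  refine Finset.sum_congr rfl fun j _ => ?_
  rw [integral_const_mul, ← hK]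
  ring

/-- the Cauchy kernel -/
theorem kc_eq {x : ℝ} (hx : 0 < x) (v : ℝ) :
    2 * ∫ t in Ioi (0 : ℝ), Real.exp (-(2 * x) * t) * Real.cos (t * v) = Kc x v := by
  obtain ⟨a, ha⟩ : ∃ a : ℂ, a = ⟨-(2 * x), v⟩ := ⟨_, rfl⟩
  have hre : a.re = -(2 * x) := by rw [ha]
  have him : a.im = v := by rw [ha]
  have hneg : a.re < 0 := by rw [hre]; linarith
  have h1 := integral_exp_mul_complex_Ioi hneg 0
  have h2 := integrableOn_exp_mul_complex_Ioi hneg 0
  have h3 := integral_re h2
  rw [h1] at h3
  have h4 : ∀ t : ℝ, RCLike.re (Complex.exp (a * (t : ℂ))) =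
      Real.exp (-(2 * x) * t) * Real.cos (t * v) := by
    intro t
    show (Complex.exp (a * (t : ℂ))).re = _
    rw [Complex.exp_re]
    simp only [Complex.mul_re, Complex.mul_im, Complex.ofReal_re, Complex.ofReal_im, hre, him,
      mul_zero, sub_zero, zero_add]
    congr 2
    ring
  have h5 : ∫ t in Ioi (0 : ℝ), Real.exp (-(2 * x) * t) * Real.cos (t * v) =
      2 * x / (4 * x ^ 2 + v ^ 2) := by
    rw [← integral_congr_ae (ae_of_all _ fun t => h4 t), h3]
    show (-Complex.exp (a * ((0 : ℝ) : ℂ)) / a).re = _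
    rw [Complex.ofReal_zero, mul_zero, Complex.exp_zero, Complex.div_re]
    simp only [Complex.neg_re, Complex.one_re, Complex.neg_im, Complex.one_im, hre, him,
      Complex.normSq_apply]
    ring
  rw [h5]
  unfold Kc
  ring

theorem exp_int {x : ℝ} (hx : 0 < x) : IntegrableOn (fun t => Real.exp (-(2 * x) * t)) (Ioi 0) :=
  exp_neg_integrableOn_Ioi 0 (by linarith)

theorem tent_int {R L : ℝ} (hL : 0 < L) :
    IntegrableOn (fun t => max 0 (R - t / L)) (Ioi (0 : ℝ)) := by
  have hc : Continuous (fun t : ℝ => max 0 (R - t / L)) :=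
    continuous_const.max (continuous_const.sub (continuous_id.div_const L))
  have h1 : IntegrableOn (fun t => max 0 (R - t / L)) (Icc 0 (R * L)) :=
    hc.continuousOn.integrableOn_Icc
  refine h1.of_forall_sdiff_eq_zero measurableSet_Ioi ?_
  intro t ht
  have h0 : 0 < t := ht.1
  have h2 : R * L < t := by
    by_contra hcon
    exact ht.2 ⟨h0.le, not_lt.1 hcon⟩
  have h3 : R < t / L := by rw [lt_div_iff₀ hL]; exact h2
  exact max_eq_left (by linarith)

/-- the kernel of the tent -/
theorem kt_eq {R L : ℝ} (hR : 0 < R) (hL : 0 < L) (v : ℝ) :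
    2 * ∫ t in Ioi (0 : ℝ), max 0 (R - t / L) * Real.cos (t * v) = Kt R L v := by
  have hRL : 0 < R * L := mul_pos hR hL
  have h1 : ∫ t in Ioi (0 : ℝ), max 0 (R - t / L) * Real.cos (t * v) =
      ∫ t in (0 : ℝ)..(R * L), (R - t / L) * Real.cos (t * v) := by
    rw [intervalIntegral.integral_of_le hRL.le]
    rw [setIntegral_eq_of_subset_of_forall_sdiff_eq_zero (s := Ioc 0 (R * L)) measurableSet_Ioi
      Ioc_subset_Ioi_self]
    · refine setIntegral_congr_fun measurableSet_Ioc fun t ht => ?_
      have h3 : t / L ≤ R := by rw [div_le_iff₀ hL]; exact ht.2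
      show max 0 (R - t / L) * Real.cos (t * v) = _
      rw [max_eq_right (by linarith)]
    · intro t ht
      have h0 : 0 < t := ht.1
      have h2 : R * L < t := by
        by_contra hcon
        exact ht.2 ⟨h0, not_lt.1 hcon⟩
      have h3 : R < t / L := by rw [lt_div_iff₀ hL]; exact h2
      rw [max_eq_left (by linarith), zero_mul]
  rw [h1]
  have hcont : ∀ a b : ℝ, IntervalIntegrable (fun t => (R - t / L) * Real.cos (t * v)) volume a b := by
    intro a b
    apply Continuous.intervalIntegrable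
    exact (continuous_const.sub (continuous_id.div_const L)).mul
      (Real.continuous_cos.comp (continuous_id.mul continuous_const))
  unfold Kt
  by_cases hv : v = 0
  · subst hv
    have h2 : ∫ t in (0 : ℝ)..(R * L), (R - t / L) * Real.cos (t * 0) =
        (R * (R * L) - (R * L) ^ 2 / (2 * L)) - (R * 0 - 0 ^ 2 / (2 * L)) := by
      refine intervalIntegral.integral_eq_sub_of_hasDerivAt
        (f := fun t => R * t - t ^ 2 / (2 * L)) (fun t _ => ?_) (hcont _ _)
      have a1 : HasDerivAt (fun y : ℝ => R * y) R t := by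
        simpa using (hasDerivAt_id t).const_mul R
      have a2 : HasDerivAt (fun y : ℝ => y ^ 2 / (2 * L)) (2 * t / (2 * L)) t := by
        simpa using (hasDerivAt_pow 2 t).div_const (2 * L)
      have e1 : HasDerivAt (fun t : ℝ => R * t - t ^ 2 / (2 * L)) (R - 2 * t / (2 * L)) t :=
        a1.sub a2
      refine e1.congr_deriv ?_
      rw [mul_zero, Real.cos_zero]
      field_simp
    have e0 : R * L * 0 / 2 = 0 := by ring
    rw [h2, e0, Real.sinc_zero]
    field_simp
    ring
  · have h2 : ∫ t in (0 : ℝ)..(R * L), (R - t / L) * Real.cos (t * v) =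
        ((R - R * L / L) * Real.sin (R * L * v) / v - Real.cos (R * L * v) / (L * v ^ 2)) -
        ((R - 0 / L) * Real.sin (0 * v) / v - Real.cos (0 * v) / (L * v ^ 2)) := by
      refine intervalIntegral.integral_eq_sub_of_hasDerivAt
        (f := fun t => (R - t / L) * Real.sin (t * v) / v - Real.cos (t * v) / (L * v ^ 2))
        (fun t _ => ?_) (hcont _ _)
      have a0 : HasDerivAt (fun t : ℝ => t * v) v t := by
        simpa using (hasDerivAt_id t).mul_const v
      have a1 : HasDerivAt (fun t : ℝ => R - t / L) (-(1 / L)) t := by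
        simpa using ((hasDerivAt_id t).div_const L).const_sub R
      have a2 : HasDerivAt (fun t : ℝ => Real.sin (t * v)) (Real.cos (t * v) * v) t := a0.sin
      have a3 : HasDerivAt (fun t : ℝ => Real.cos (t * v)) (-Real.sin (t * v) * v) t := a0.cos
      have a4 : HasDerivAt (fun t : ℝ => (R - t / L) * Real.sin (t * v) / v -
          Real.cos (t * v) / (L * v ^ 2))
          ((-(1 / L) * Real.sin (t * v) + (R - t / L) * (Real.cos (t * v) * v)) / v -
            -Real.sin (t * v) * v / (L * v ^ 2)) t :=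
        ((a1.mul a2).div_const v).sub (a3.div_const (L * v ^ 2))
      refine a4.congr_deriv ?_
      field_simp
      ring
    rw [h2]
    have hLne : L ≠ 0 := hL.ne'
    have hRne : R ≠ 0 := hR.ne'
    have hz : R * L * v / 2 ≠ 0 := by positivity
    rw [Real.sinc_of_ne_zero hz, zero_mul, Real.sin_zero, Real.cos_zero]
    have hc : Real.cos (R * L * v) = 1 - 2 * Real.sin (R * L * v / 2) ^ 2 := by
      have e : R * L * v = 2 * (R * L * v / 2) := by ring
      conv_lhs => rw [e, Real.cos_two_mul]
      have := Real.sin_sq_add_cos_sq (R * L * v / 2)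
      linarith
    rw [hc]
    have e2 : R * L / L = R := by field_simp
    rw [e2]
    field_simp
    ring

theorem t_KD : S_KD := by
  intro ι B w g R ε L N c hR hε hL hA
  have hk : ∀ k : ℕ, 0 < ((k : ℝ) + 1) / L := fun k => by positivity
  have h1 : ∀ k : ℕ, PK B w g (Kc ((k + 1) / L)) =
      2 * ∫ t in Ioi (0 : ℝ), Real.exp (-(2 * ((k + 1) / L)) * t) * SS B w g t := fun k =>
    PK_int B w g (exp_int (hk k)) fun v => kc_eq (hk k) v
  have h2 := PK_int B w g (tent_int (R := R) hL) fun v => kt_eq hR hL v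
  have h3 : PK B w g (Kc (1 / L)) =
      2 * ∫ t in Ioi (0 : ℝ), Real.exp (-(2 * (1 / L)) * t) * SS B w g t :=
    PK_int B w g (exp_int (by positivity)) fun v => kc_eq (by positivity) v
  have i1 : ∀ k : ℕ, IntegrableOn (fun t => c k * (Real.exp (-(2 * ((k + 1) / L)) * t) *
      SS B w g t)) (Ioi 0) := fun k => (int_SS B w g (exp_int (hk k))).const_mul _
  have i2 := int_SS B w g (tent_int (R := R) hL)
  have i3 := int_SS B w g (exp_int (x := 1 / L) (by positivity))
  have h4 : (∑ k ∈ Finset.range N, c k * PK B w g (Kc ((k + 1) / L))) - PK B w g (Kt R L) =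
      2 * ∫ t in Ioi (0 : ℝ), ((∑ k ∈ Finset.range N, c k *
        (Real.exp (-(2 * ((k + 1) / L)) * t) * SS B w g t)) -
          max 0 (R - t / L) * SS B w g t) := by
    rw [integral_sub (integrable_finsetSum _ fun k _ => i1 k) i2,
      integral_finsetSum _ (fun k _ => i1 k), mul_sub, ← h2, Finset.mul_sum]
    congr 1
    refine Finset.sum_congr rfl fun k _ => ?_
    rw [integral_const_mul, h1]
    ring
  rw [h4, abs_mul, abs_of_pos (by norm_num : (0 : ℝ) < 2), h3]
  have h5 : |∫ t in Ioi (0 : ℝ), ((∑ k ∈ Finset.range N, c k *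
        (Real.exp (-(2 * ((k + 1) / L)) * t) * SS B w g t)) -
          max 0 (R - t / L) * SS B w g t)| ≤
      ∫ t in Ioi (0 : ℝ), ε * (Real.exp (-(2 * (1 / L)) * t) * SS B w g t) := by
    rw [← Real.norm_eq_abs]
    refine norm_integral_le_of_norm_le (i3.const_mul ε) ?_
    refine (ae_restrict_iff' measurableSet_Ioi).2 (ae_of_all _ fun t ht => ?_)
    have ht0 : 0 ≤ t / L := div_nonneg (le_of_lt ht) hL.le
    have e0 := hA (t / L) ht0
    have e1 : (∑ k ∈ Finset.range N, c k *
        (Real.exp (-(2 * ((k + 1) / L)) * t) * SS B w g t)) - max 0 (R - t / L) * SS B w g t =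
        ((∑ k ∈ Finset.range N, c k * Real.exp (-(2 * (k + 1) * (t / L)))) -
          max 0 (R - t / L)) * SS B w g t := by
      rw [sub_mul, Finset.sum_mul]
      congr 1
      refine Finset.sum_congr rfl fun k _ => ?_
      have e2 : -(2 * (((k : ℝ) + 1) / L)) * t = -(2 * (k + 1) * (t / L)) := by ring
      rw [e2]
      ring
    rw [e1, Real.norm_eq_abs, abs_mul, abs_of_nonneg (SS_nonneg B w g t)]
    have e3 : -(2 * (1 / L)) * t = -(2 * (t / L)) := by ring
    rw [e3, ← mul_assoc]
    exact mul_le_mul_of_nonneg_right e0 (SS_nonneg B w g t)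
  rw [integral_const_mul] at h5
  linarith

end Pool.Agent.Q224.AH
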