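import Pool.Agent.Q260.AH.Dg
import Pool.Agent.Q224.AH.KD

/-!
# Project GW, job KDg: positive definiteness, general weight
-/

set_option autoImplicit false

namespace Pool.Agent.Q224.AH

open MeasureTheory Filter Topology Set Pool.Agent.Q260.AH

theorem wt_int {w : ℝ → ℝ} {R L : ℝ} (hw : Wok w R) (hL : 0 < L) :
    IntegrableOn (fun t => w (t / L)) (Ioi (0 : ℝ)) := by
  have hc : Continuous (fun t : ℝ => w (t / L)) := hw.2.1.comp (continuous_id.div_const L)
  have h1 : IntegrableOn (fun t => w (t / L)) (Icc 0 (R * L)) :=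
    hc.continuousOn.integrableOn_Icc
  refine h1.of_forall_sdiff_eq_zero measurableSet_Ioi ?_
  intro t ht
  have h0 : 0 < t := ht.1
  have h2 : R * L < t := by
    by_contra hcon
    exact ht.2 ⟨h0.le, not_lt.1 hcon⟩
  have h3 : R < t / L := by rw [lt_div_iff₀ hL]; exact h2
  exact hw.2.2 _ h3.le

/-- the kernel of the weight -/
theorem kg_eq {w : ℝ → ℝ} {R L : ℝ} (hw : Wok w R) (hL : 0 < L) (v : ℝ) :
    2 * ∫ t in Ioi (0 : ℝ), w (t / L) * Real.cos (t * v) = Kg w R L v := by
  have hR := hw.1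
  have hRL : 0 < R * L := mul_pos hR hL
  have h1 : ∫ t in Ioi (0 : ℝ), w (t / L) * Real.cos (t * v) =
      ∫ t in (0 : ℝ)..(R * L), w (t / L) * Real.cos (t * v) := by
    rw [intervalIntegral.integral_of_le hRL.le]
    rw [setIntegral_eq_of_subset_of_forall_sdiff_eq_zero (s := Ioc 0 (R * L)) measurableSet_Ioi
      Ioc_subset_Ioi_self]
    intro t ht
    have h0 : 0 < t := ht.1
    have h2 : R * L < t := by
      by_contra hcon
      exact ht.2 ⟨h0, not_lt.1 hcon⟩
    have h3 : R < t / L := by rw [lt_div_iff₀ hL]; exact h2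
    rw [hw.2.2 _ h3.le, zero_mul]
  have h2 := intervalIntegral.integral_comp_div (a := (0 : ℝ)) (b := R * L) (c := L)
    (fun s => w s * Real.cos (L * v * s)) hL.ne'
  rw [zero_div, mul_div_assoc, div_self hL.ne', mul_one, smul_eq_mul] at h2
  have h3 : ∫ t in (0 : ℝ)..(R * L), w (t / L) * Real.cos (t * v) =
      ∫ t in (0 : ℝ)..(R * L), w (t / L) * Real.cos (L * v * (t / L)) := by
    refine intervalIntegral.integral_congr fun t _ => ?_
    have e : L * v * (t / L) = t * v := by
      field_simp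
    show w (t / L) * Real.cos (t * v) = w (t / L) * Real.cos (L * v * (t / L))
    rw [e]
  rw [h1, h3, h2]
  unfold Kg
  ring

theorem t_KDg : S_KDg := by
  intro ι B wt g w R ε L N c hw hε hL hA
  have hk : ∀ k : ℕ, 0 < ((k : ℝ) + 1) / L := fun k => by positivity
  have h1 : ∀ k : ℕ, PK B wt g (Kc ((k + 1) / L)) =
      2 * ∫ t in Ioi (0 : ℝ), Real.exp (-(2 * ((k + 1) / L)) * t) * SS B wt g t := fun k =>
    PK_int B wt g (exp_int (hk k)) fun v => kc_eq (hk k) v
  have h2 := PK_int B wt g (wt_int hw hL) fun v => kg_eq hw hL v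
  have h3 : PK B wt g (Kc (1 / L)) =
      2 * ∫ t in Ioi (0 : ℝ), Real.exp (-(2 * (1 / L)) * t) * SS B wt g t :=
    PK_int B wt g (exp_int (by positivity)) fun v => kc_eq (by positivity) v
  have i1 : ∀ k : ℕ, IntegrableOn (fun t => c k * (Real.exp (-(2 * ((k + 1) / L)) * t) *
      SS B wt g t)) (Ioi 0) := fun k => (int_SS B wt g (exp_int (hk k))).const_mul _
  have i2 := int_SS B wt g (wt_int hw hL)
  have i3 := int_SS B wt g (exp_int (x := 1 / L) (by positivity))
  have h4 : (∑ k ∈ Finset.range N, c k * PK B wt g (Kc ((k + 1) / L))) - PK B wt g (Kg w R L) =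
      2 * ∫ t in Ioi (0 : ℝ), ((∑ k ∈ Finset.range N, c k *
        (Real.exp (-(2 * ((k + 1) / L)) * t) * SS B wt g t)) -
          w (t / L) * SS B wt g t) := by
    rw [integral_sub (integrable_finsetSum _ fun k _ => i1 k) i2,
      integral_finsetSum _ (fun k _ => i1 k), mul_sub, ← h2, Finset.mul_sum]
    congr 1
    refine Finset.sum_congr rfl fun k _ => ?_
    rw [integral_const_mul, h1]
    ring
  rw [h4, abs_mul, abs_of_pos (by norm_num : (0 : ℝ) < 2), h3]
  have h5 : |∫ t in Ioi (0 : ℝ), ((∑ k ∈ Finset.range N, c k *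
        (Real.exp (-(2 * ((k + 1) / L)) * t) * SS B wt g t)) -
          w (t / L) * SS B wt g t)| ≤
      ∫ t in Ioi (0 : ℝ), ε * (Real.exp (-(2 * (1 / L)) * t) * SS B wt g t) := by
    rw [← Real.norm_eq_abs]
    refine norm_integral_le_of_norm_le (i3.const_mul ε) ?_
    refine (ae_restrict_iff' measurableSet_Ioi).2 (ae_of_all _ fun t ht => ?_)
    have ht0 : 0 ≤ t / L := div_nonneg (le_of_lt ht) hL.le
    have e0 := hA (t / L) ht0
    have e1 : (∑ k ∈ Finset.range N, c k *
        (Real.exp (-(2 * ((k + 1) / L)) * t) * SS B wt g t)) - w (t / L) * SS B wt g t =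
        ((∑ k ∈ Finset.range N, c k * Real.exp (-(2 * (k + 1) * (t / L)))) -
          w (t / L)) * SS B wt g t := by
      rw [sub_mul, Finset.sum_mul]
      congr 1
      refine Finset.sum_congr rfl fun k _ => ?_
      have e2 : -(2 * (((k : ℝ) + 1) / L)) * t = -(2 * (k + 1) * (t / L)) := by ring
      rw [e2]
      ring
    rw [e1, Real.norm_eq_abs, abs_mul, abs_of_nonneg (SS_nonneg B wt g t)]
    have e3 : -(2 * (1 / L)) * t = -(2 * (t / L)) := by ring
    rw [e3, ← mul_assoc]
    exact mul_le_mul_of_nonneg_right e0 (SS_nonneg B wt g t)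
  rw [integral_const_mul] at h5
  linarith

end Pool.Agent.Q224.AH
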