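import Pool.Agent.Q260.AH.Dg
import Pool.Agent.Q172.HS.S4

/-!
# Project GW, job NG: the blocks in terms of small spacings
-/

set_option autoImplicit false

namespace Pool.Agent.Q224.AH

open MeasureTheory Filter Topology Set
open Pool.Agent.Q260.AH (Wok Kg BX PB ZB S_NG)
open Pool.Agent.Q260.GM (LL ev_pos ev_L r_lim T_top)
open Pool.Agent.Y749.Rig (ZZ mm nT nT_pos mem_ZZ one_lt_log Mp_bdd DD DD_nonneg Mp Bdd lint_le
  Mp_integral RR)
open Pool.Agent.Y763.AH (PS PS_mono PS_nonneg full_sum sum_idx2 NZ_lim)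
open SG (ord NZ)
open Q172.HS (nr nr_nonneg SM cy cy_pos near_pairs PS_add PS_smul)

/-- the kernel in units of the mean spacing -/
noncomputable def k0 (w : ℝ → ℝ) (R x : ℝ) : ℝ :=
  2 * ∫ s in (0 : ℝ)..R, w s * Real.cos (2 * Real.pi * x * s)

theorem kg_k0 (w : ℝ → ℝ) (R L v : ℝ) : Kg w R L v = L * k0 w R (L * v / (2 * Real.pi)) := by
  have hpi := Real.pi_pos
  unfold Kg k0
  have e : ∀ s : ℝ, 2 * Real.pi * (L * v / (2 * Real.pi)) * s = L * v * s := fun s => by field_simp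
  simp only [e]
  ring

theorem k0_even (w : ℝ → ℝ) (R x : ℝ) : k0 w R (-x) = k0 w R x := by
  unfold k0
  congr 1
  refine intervalIntegral.integral_congr fun s _ => ?_
  show w s * Real.cos (2 * Real.pi * -x * s) = w s * Real.cos (2 * Real.pi * x * s)
  rw [show 2 * Real.pi * -x * s = -(2 * Real.pi * x * s) by ring, Real.cos_neg]

theorem k0_abs (w : ℝ → ℝ) (R x : ℝ) : k0 w R |x| = k0 w R x := by
  rcases abs_choice x with h | h
  · rw [h]
  · rw [h, k0_even]

theorem k0_cont {w : ℝ → ℝ} (hw : Continuous w) (R : ℝ) : Continuous (k0 w R) := by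
  unfold k0
  refine Continuous.const_mul ?_ 2
  apply intervalIntegral.continuous_parametric_intervalIntegral_of_continuous'
  fun_prop

theorem k0_zero (w : ℝ → ℝ) (R : ℝ) : k0 w R 0 = 2 * ∫ s in (0 : ℝ)..R, w s := by
  unfold k0
  simp

theorem k0_le {w : ℝ → ℝ} (hw : Continuous w) {R : ℝ} (hR : 0 < R) (x : ℝ) :
    k0 w R x ≤ 2 * ∫ s in (0 : ℝ)..R, |w s| := by
  unfold k0
  apply mul_le_mul_of_nonneg_left _ (by norm_num)
  refine intervalIntegral.integral_mono_on hR.le ?_ ?_ fun s _ => ?_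
  · apply Continuous.intervalIntegrable
    fun_prop
  · exact hw.abs.intervalIntegrable _ _
  · calc w s * Real.cos (2 * Real.pi * x * s) ≤ |w s * Real.cos (2 * Real.pi * x * s)| := le_abs_self _
      _ = |w s| * |Real.cos (2 * Real.pi * x * s)| := abs_mul _ _
      _ ≤ |w s| * 1 := mul_le_mul_of_nonneg_left (Real.abs_cos_le_one _) (abs_nonneg _)
      _ = |w s| := mul_one _

open Classical in
/-- the positive part of the kernel -/
theorem k0_split {w : ℝ → ℝ} {R lam : ℝ} (hw : Wok w R) (hlam : 0 < lam)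
    (hneg : ∀ x : ℝ, lam ≤ x → ∫ s in (0 : ℝ)..R, w s * Real.cos (2 * Real.pi * x * s) ≤ 0)
    {ρ : ℝ} (hρ : 0 < ρ) : ∃ d : ℝ, 0 < d ∧ 2 * d < lam ∧ ∀ x : ℝ,
      max 0 (k0 w R x) ≤ (2 * (∫ s in (0 : ℝ)..R, |w s|) + 1) * (if |x| < lam - 2 * d then 1 else 0) +
        ρ * cy x := by
  obtain ⟨hR, hwc, -⟩ := hw
  have hI : 0 ≤ ∫ s in (0 : ℝ)..R, |w s| :=
    intervalIntegral.integral_nonneg hR.le fun s _ => abs_nonneg _
  have hk : ∀ x : ℝ, lam ≤ x → k0 w R x ≤ 0 := fun x hx => by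
    have := hneg x hx
    unfold k0
    linarith
  obtain ⟨ρ', hρ'⟩ : ∃ ρ' : ℝ, ρ' = ρ / (1 + lam ^ 2) := ⟨_, rfl⟩
  have hρ'0 : 0 < ρ' := by rw [hρ']; positivity
  obtain ⟨τ, h1, h1'⟩ := Metric.continuousAt_iff.1 ((k0_cont hwc R).continuousAt (x := lam)) ρ' hρ'0
  refine ⟨min (τ / 4) (lam / 4), by positivity, ?_, fun x => ?_⟩
  · have := min_le_right (τ / 4) (lam / 4)
    linarith
  · have hc := mul_pos hρ (cy_pos x)
    by_cases c1 : |x| < lam - 2 * min (τ / 4) (lam / 4)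
    · rw [if_pos c1, mul_one]
      have h2 := k0_le hwc hR x
      exact max_le (by linarith) (by linarith)
    · rw [if_neg c1, mul_zero, zero_add]
      push Not at c1
      refine max_le hc.le ?_
      by_cases c2 : lam ≤ |x|
      · have := hk _ c2
        rw [k0_abs] at this
        linarith
      · push Not at c2
        have h3 := h1' (x := |x|) (by
          rw [Real.dist_eq, abs_lt]
          have := min_le_left (τ / 4) (lam / 4)
          constructor <;> linarith)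
        rw [Real.dist_eq, k0_abs] at h3
        have h4 := (abs_lt.1 h3).2
        have h5 := hk lam le_rfl
        have h6 : ρ' ≤ ρ * cy x := by
          rw [hρ']
          unfold Q172.HS.cy
          rw [mul_one_div]
          apply div_le_div_of_nonneg_left hρ.le (by positivity)
          have h7 : x ^ 2 ≤ lam ^ 2 := by
            rw [← sq_abs]
            exact pow_le_pow_left₀ (abs_nonneg _) c2.le 2
          linarith
        linarith

open Classical in
/-- the sum over the pairs of a block in terms of the indices -/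
theorem pb_eq (hRH : RiemannHypothesis) {K : ℝ → ℝ} (hK : ∀ v, K (-v) = K v) {T1 T2 : ℝ}
    (h12 : T1 ≤ T2) :
    PB K T1 T2 = K 0 * ((NZ T2 : ℝ) - NZ T1) + 2 * PS (fun n n' =>
      (if T1 < ord n then 1 else 0) * (if T1 < ord n' then 1 else 0) * K (ord n - ord n')) (NZ T2) := by
  obtain ⟨f, hf⟩ : ∃ f : ℝ → ℝ → ℝ, f = fun x x' =>
    (if T1 < x then 1 else 0) * (if T1 < x' then 1 else 0) * K (x - x') := ⟨_, rfl⟩
  have hZ : ZB T1 T2 = (ZZ T2).filter (fun s => T1 < s.im) := by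
    unfold ZB
    ext s
    rw [Finset.mem_sdiff, Finset.mem_filter]
    constructor
    · rintro ⟨a1, a2⟩
      refine ⟨a1, ?_⟩
      by_contra hcon
      apply a2
      rw [mem_ZZ] at a1 ⊢
      obtain ⟨b5, b1, b2, b3, b4⟩ := a1
      exact ⟨b5, b1, b2, b3, not_lt.1 hcon⟩
    · rintro ⟨a1, a2⟩
      refine ⟨a1, fun hcon => ?_⟩
      rw [mem_ZZ] at hcon
      obtain ⟨b5, b1, b2, b3, b4⟩ := hcon
      linarith
  have h1 : PB K T1 T2 = ∑ s ∈ ZZ T2, ∑ s' ∈ ZZ T2, mm s * mm s' * f s.im s'.im := by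
    unfold Pool.Agent.Q260.AH.PB Pool.Agent.Q260.AH.PK
    rw [hZ, Finset.sum_filter]
    refine Finset.sum_congr rfl fun s _ => ?_
    rw [Finset.sum_filter]
    by_cases c1 : T1 < s.im
    · rw [if_pos c1]
      refine Finset.sum_congr rfl fun s' _ => ?_
      by_cases c2 : T1 < s'.im
      · rw [if_pos c2, hf]
        simp only
        rw [if_pos c1, if_pos c2]
        ring
      · rw [if_neg c2, hf]
        simp only
        rw [if_neg c2]
        ring
    · rw [if_neg c1]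
      symm
      apply Finset.sum_eq_zero
      intro s' _
      rw [hf]
      simp only
      rw [if_neg c1]
      ring
  have hfs : ∀ x x', f x x' = f x' x := by
    intro x x'
    rw [hf]
    simp only
    rw [show x - x' = -(x' - x) by ring, hK]
    ring
  rw [h1, sum_idx2 hRH T2 f, full_sum (fun n n' => f (ord n) (ord n')) (fun n n' => hfs _ _)]
  have h2 : ∑ n ∈ Finset.Ioc 0 (NZ T2), f (ord n) (ord n) = K 0 * ((NZ T2 : ℝ) - NZ T1) := by
    have h3 : ∀ n ∈ Finset.Ioc 0 (NZ T2), f (ord n) (ord n) = if NZ T1 < n then K 0 else 0 := by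
      intro n hn
      rw [Finset.mem_Ioc] at hn
      have h4 : T1 < ord n ↔ NZ T1 < n := by
        rw [← not_le, ← not_le, SG.ord_le_iff hn.1]
      rw [hf]
      simp only
      rw [sub_self]
      by_cases c : NZ T1 < n
      · rw [if_pos (h4.2 c), if_pos c]
        ring
      · rw [if_neg (fun h => c (h4.1 h)), if_neg c]
        ring
    rw [Finset.sum_congr rfl h3, ← Finset.sum_filter, Finset.sum_const, nsmul_eq_mul]
    have h5 : (Finset.Ioc 0 (NZ T2)).filter (fun n => NZ T1 < n) = Finset.Ioc (NZ T1) (NZ T2) := by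
      ext n
      rw [Finset.mem_filter, Finset.mem_Ioc, Finset.mem_Ioc]
      omega
    have hm : NZ T1 ≤ NZ T2 := SG.NZ_mono h12
    rw [h5, Nat.card_Ioc, Nat.cast_sub hm]
    ring
  rw [h2, hf]

/-- the Cauchy kernel over the pairs of indices -/
theorem ps_cy (hRH : RiemannHypothesis) : ∃ C0 : ℝ, 0 < C0 ∧ ∀ᶠ T in atTop,
    PS (fun n n' => cy ((ord n - ord n') * Real.log T / (2 * Real.pi))) (NZ T) / nT T ≤ C0 := by
  obtain ⟨C, hC, hB⟩ := Mp_bdd
  have hC0 : 0 ≤ C := by linarith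
  have hD := DD_nonneg 0
  refine ⟨2 * C * DD 0 + 1, by positivity, ?_⟩
  filter_upwards [hB, eventually_ge_atTop 10] with T hT hT10
  have hn := nT_pos hT10
  have i3 : Integrable (fun x : ℝ => 1 / (1 + x ^ 2)) (Mp T) := by
    refine Bdd.integrable hC0 hT ?_ ⟨1, fun x => ?_⟩
    · exact continuous_const.div (by fun_prop) fun x => by positivity
    · rw [abs_of_pos (by positivity)]
  have h0 : ∫ x, cy x ∂(Mp T) ≤ 2 * C * DD 0 := by
    have h1 := lint_le hC0 hT 0
    have e : {x : ℝ | ((0 : ℕ) : ℝ) ≤ |x|} = Set.univ := by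
      ext x
      simp
    rw [e, Measure.restrict_univ] at h1
    unfold Q172.HS.cy
    rw [integral_eq_lintegral_of_nonneg_ae (ae_of_all _ fun x => by positivity)
      i3.aestronglyMeasurable]
    exact ENNReal.toReal_le_of_le_ofReal (by positivity) h1
  rw [Mp_integral hT10 cy, div_le_iff₀ hn] at h0
  obtain ⟨F, hF⟩ : ∃ F : ℝ → ℝ → ℝ, ∀ x x', F x x' = cy ((x - x') * Real.log T / (2 * Real.pi)) :=
    ⟨_, fun x x' => rfl⟩
  have e1 : RR cy (ZZ T) (ZZ T) (Real.log T) = ∑ s ∈ ZZ T, ∑ s' ∈ ZZ T, mm s * mm s' * F s.im s'.im := by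
    unfold Pool.Agent.Y749.Rig.RR
    refine Finset.sum_congr rfl fun s _ => Finset.sum_congr rfl fun s' _ => ?_
    rw [hF]
  have hF0 : ∀ x x', 0 ≤ F x x' := fun x x' => by rw [hF]; exact (cy_pos _).le
  have hFs : ∀ x x', F x x' = F x' x := by
    intro x x'
    rw [hF, hF]
    unfold Q172.HS.cy
    congr 2
    ring
  rw [e1, sum_idx2 hRH T F, full_sum (fun n n' => F (ord n) (ord n')) (fun n n' => hFs _ _)] at h0
  have h1 : 0 ≤ ∑ n ∈ Finset.Ioc 0 (NZ T), F (ord n) (ord n) :=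
    Finset.sum_nonneg fun n _ => hF0 _ _
  have h2 : 0 ≤ PS (fun n n' => F (ord n) (ord n')) (NZ T) := PS_nonneg fun _ _ => hF0 _ _
  have h3 : PS (fun n n' => cy ((ord n - ord n') * Real.log T / (2 * Real.pi))) (NZ T) =
      PS (fun n n' => F (ord n) (ord n')) (NZ T) := by
    congr 1
    funext n n'
    rw [hF]
  rw [div_le_iff₀ hn, h3]
  nlinarith

/-- the number of zeros, scaled -/
theorem nz_scaled {Y : ℝ} (hY : 0 ≤ Y) :
    Tendsto (fun κ : ℝ => κ / LL κ * (NZ (Y / κ) : ℝ)) (𝓝[>] 0) (𝓝 (Y / (2 * Real.pi))) := by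
  have hpi := Real.pi_pos
  rcases hY.lt_or_eq with hY0 | hY0
  · have h1 := NZ_lim.comp (T_top hY0)
    have h2 := (h1.mul (r_lim hY0)).const_mul (Y / (2 * Real.pi))
    rw [mul_one, mul_one] at h2
    refine h2.congr' ?_
    filter_upwards [ev_pos, ev_L 1, (T_top hY0).eventually_ge_atTop 10] with κ hκ hL hT
    have hLp : LL κ ≠ 0 := by linarith
    have hlT : 1 < Real.log (Y / κ) := one_lt_log (by linarith)
    have hlTp : Real.log (Y / κ) ≠ 0 := by linarith
    show Y / (2 * Real.pi) * ((NZ (Y / κ) : ℝ) / nT (Y / κ) * (Real.log (Y / κ) / LL κ)) =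
      κ / LL κ * (NZ (Y / κ) : ℝ)
    unfold Pool.Agent.Y749.Rig.nT
    field_simp
  · rw [← hY0]
    have e : (fun κ : ℝ => κ / LL κ * (NZ (0 / κ) : ℝ)) = fun _ => 0 := by
      funext κ
      rw [zero_div, SG.NZ_nonpos le_rfl]
      simp
    rw [e, zero_div]
    exact tendsto_const_nhds

theorem t_NG : S_NG := by
  classical
  intro hRH w R lam hw hlam hneg p q δ hp hpq hδ
  have hpi := Real.pi_pos
  have hq : 0 < q := by linarith
  obtain ⟨C0, hC0, hcy⟩ := ps_cy hRH
  have hρ : 0 < δ / (16 * q * C0) := by positivity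
  obtain ⟨d, hd0, hd1, hsplit⟩ := k0_split hw hlam hneg hρ
  obtain ⟨ρ, hρd⟩ : ∃ ρ : ℝ, ρ = δ / (16 * q * C0) := ⟨_, rfl⟩
  rw [← hρd] at hsplit hρ
  have hI : 0 ≤ ∫ s in (0 : ℝ)..R, |w s| :=
    intervalIntegral.integral_nonneg hw.1.le fun s _ => abs_nonneg _
  obtain ⟨A, hA⟩ : ∃ A : ℝ, A = 2 * (∫ s in (0 : ℝ)..R, |w s|) + 1 := ⟨_, rfl⟩
  have hA0 : 0 < A := by rw [hA]; positivity
  rw [← hA] at hsplit
  have hη : 0 < δ / (4 * q * A) := by positivity
  obtain ⟨K0, hK0, hnp⟩ := near_pairs hRH (c := lam - d) (c' := lam - d / 2) (by linarith)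
    (by linarith) hη
  refine ⟨d / 2, q * A * K0, by positivity, by positivity, ?_⟩
  have hlimN := ((nz_scaled hq.le).sub (nz_scaled hp)).const_mul (Real.pi / 2 * k0 w R 0)
  have hval : Real.pi / 2 * k0 w R 0 * (q / (2 * Real.pi) - p / (2 * Real.pi)) =
      (∫ s in (0 : ℝ)..R, w s) / 2 * (q - p) := by
    rw [k0_zero]
    field_simp
  rw [hval] at hlimN
  filter_upwards [hlimN.eventually (ge_mem_nhds (show (∫ s in (0 : ℝ)..R, w s) / 2 * (q - p) <
      (∫ s in (0 : ℝ)..R, w s) / 2 * (q - p) + δ / 4 by linarith)),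
    (T_top hq).eventually hcy, (T_top hq).eventually hnp, ev_pos, ev_L 1,
    (T_top hq).eventually_ge_atTop 10,
    (r_lim hq).eventually (ge_mem_nhds (show (1 : ℝ) < 2 by norm_num)),
    (r_lim hq).eventually (ge_mem_nhds (show (1 : ℝ) < (lam - d) / (lam - 2 * d) by
      rw [lt_div_iff₀ (by linarith)]; linarith))] with κ g1 g2 g3 hκ hL hT gr1 gr2
  have hLp : 0 < LL κ := by linarith
  obtain ⟨T, hTd⟩ : ∃ T : ℝ, T = q / κ := ⟨_, rfl⟩
  rw [← hTd] at g2 g3 hT gr1 gr2 ⊢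
  have hlT : 1 < Real.log T := one_lt_log (by linarith)
  obtain ⟨r, hr⟩ : ∃ r : ℝ, r = Real.log T / LL κ := ⟨_, rfl⟩
  rw [← hr] at gr1 gr2
  have hr0 : 0 < r := by rw [hr]; positivity
  have hn := nT_pos hT
  have h12 : p / κ ≤ T := by rw [hTd]; exact div_le_div_of_nonneg_right hpq.le hκ.le
  have hKe : ∀ v, Kg w R (LL κ) (-v) = Kg w R (LL κ) v := by
    intro v
    rw [kg_k0, kg_k0]
    rw [show LL κ * -v / (2 * Real.pi) = -(LL κ * v / (2 * Real.pi)) by ring, k0_even]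
  -- the pairs
  have hpt : ∀ x x' : ℝ, (if p / κ < x then (1 : ℝ) else 0) * (if p / κ < x' then 1 else 0) *
      Kg w R (LL κ) (x - x') ≤ LL κ * A * nr (lam - d) T x x' +
        4 * LL κ * ρ * cy ((x - x') * Real.log T / (2 * Real.pi)) := by
    intro x x'
    obtain ⟨z, hz⟩ : ∃ z : ℝ, z = LL κ * (x - x') / (2 * Real.pi) := ⟨_, rfl⟩
    have e1 : (x - x') * Real.log T / (2 * Real.pi) = r * z := by
      rw [hr, hz]
      field_simp
    have h1 : Kg w R (LL κ) (x - x') = LL κ * k0 w R z := by rw [kg_k0, hz]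
    rw [h1, e1]
    have h2 : (if p / κ < x then (1 : ℝ) else 0) * (if p / κ < x' then 1 else 0) *
        (LL κ * k0 w R z) ≤ LL κ * max 0 (k0 w R z) := by
      have h3 : k0 w R z ≤ max 0 (k0 w R z) := le_max_right _ _
      have h4 : 0 ≤ max 0 (k0 w R z) := le_max_left _ _
      have h5 : LL κ * k0 w R z ≤ LL κ * max 0 (k0 w R z) := mul_le_mul_of_nonneg_left h3 hLp.le
      have h6 : 0 ≤ LL κ * max 0 (k0 w R z) := mul_nonneg hLp.le h4
      split_ifs
      · linarith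
      · linarith
      · linarith
      · linarith
    refine h2.trans ?_
    have h7 := mul_le_mul_of_nonneg_left (hsplit z) hLp.le
    refine h7.trans ?_
    have h8 : (if |z| < lam - 2 * d then (1 : ℝ) else 0) ≤ nr (lam - d) T x x' := by
      unfold Q172.HS.nr
      rw [e1]
      by_cases c : |z| < lam - 2 * d
      · have h9 : |r * z| < lam - d := by
          rw [abs_mul, abs_of_pos hr0]
          rw [le_div_iff₀ (by linarith)] at gr2
          calc r * |z| < r * (lam - 2 * d) := mul_lt_mul_of_pos_left c hr0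
            _ ≤ lam - d := gr2
        rw [if_pos c, if_pos h9]
      · rw [if_neg c]
        split_ifs <;> norm_num
    have h10 : cy z ≤ 4 * cy (r * z) := by
      unfold Q172.HS.cy
      rw [mul_one_div, div_le_div_iff₀ (by positivity) (by positivity)]
      have h11 : (r * z) ^ 2 ≤ 4 * z ^ 2 := by
        rw [mul_pow]
        have : r ^ 2 ≤ 4 := by nlinarith
        exact mul_le_mul_of_nonneg_right this (sq_nonneg z)
      nlinarith
    have h12 : A * (if |z| < lam - 2 * d then (1 : ℝ) else 0) ≤ A * nr (lam - d) T x x' :=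
      mul_le_mul_of_nonneg_left h8 hA0.le
    have h13 : ρ * cy z ≤ ρ * (4 * cy (r * z)) := mul_le_mul_of_nonneg_left h10 hρ.le
    have h14 := mul_le_mul_of_nonneg_left (add_le_add h12 h13) hLp.le
    refine h14.trans (le_of_eq ?_)
    ring
  have hPS : PS (fun n n' => (if p / κ < ord n then (1 : ℝ) else 0) *
      (if p / κ < ord n' then 1 else 0) * Kg w R (LL κ) (ord n - ord n')) (NZ T) ≤
      LL κ * A * PS (fun n n' => nr (lam - d) T (ord n) (ord n')) (NZ T) + 4 * LL κ * ρ *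
        PS (fun n n' => cy ((ord n - ord n') * Real.log T / (2 * Real.pi))) (NZ T) := by
    rw [← PS_smul, ← PS_smul, ← PS_add]
    exact PS_mono fun n j _ _ _ => hpt _ _
  obtain ⟨X1, hX1⟩ : ∃ X1 : ℝ, X1 = PS (fun n n' => nr (lam - d) T (ord n) (ord n')) (NZ T) := ⟨_, rfl⟩
  obtain ⟨X2, hX2⟩ : ∃ X2 : ℝ, X2 =
    PS (fun n n' => cy ((ord n - ord n') * Real.log T / (2 * Real.pi))) (NZ T) := ⟨_, rfl⟩
  rw [← hX1, ← hX2] at hPS
  rw [← hX1] at g3
  rw [← hX2] at g2
  have hB : BX w R κ p q = κ / LL κ ^ 2 * (Real.pi / 2 * (Kg w R (LL κ) 0 * ((NZ T : ℝ) - NZ (p / κ)) +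
      2 * PS (fun n n' => (if p / κ < ord n then (1 : ℝ) else 0) *
      (if p / κ < ord n' then 1 else 0) * Kg w R (LL κ) (ord n - ord n')) (NZ T))) := by
    unfold Pool.Agent.Q260.AH.BX
    rw [← hTd, pb_eq hRH hKe h12]
  have hK00 : Kg w R (LL κ) 0 = LL κ * k0 w R 0 := by
    rw [kg_k0]
    simp
  rw [hB, hK00]
  have hcoef : 0 ≤ κ / LL κ ^ 2 * (Real.pi / 2) := by positivity
  have h1 : κ / LL κ ^ 2 * (Real.pi / 2 * (LL κ * k0 w R 0 * ((NZ T : ℝ) - NZ (p / κ)) +
      2 * PS (fun n n' => (if p / κ < ord n then (1 : ℝ) else 0) *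
      (if p / κ < ord n' then 1 else 0) * Kg w R (LL κ) (ord n - ord n')) (NZ T))) ≤
      κ / LL κ ^ 2 * (Real.pi / 2 * (LL κ * k0 w R 0 * ((NZ T : ℝ) - NZ (p / κ)) +
      2 * (LL κ * A * X1 + 4 * LL κ * ρ * X2))) := by
    apply mul_le_mul_of_nonneg_left _ (by positivity)
    apply mul_le_mul_of_nonneg_left _ (by positivity)
    linarith
  refine h1.trans ?_
  have e2 : κ / LL κ ^ 2 * (Real.pi / 2 * (LL κ * k0 w R 0 * ((NZ T : ℝ) - NZ (p / κ)) +
      2 * (LL κ * A * X1 + 4 * LL κ * ρ * X2))) =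
      Real.pi / 2 * k0 w R 0 * (κ / LL κ * (NZ T : ℝ) - κ / LL κ * (NZ (p / κ) : ℝ)) +
      q * r / 2 * (A * (X1 / nT T) + 4 * ρ * (X2 / nT T)) := by
    have hnT : nT T = q / κ * Real.log T / (2 * Real.pi) := by
      unfold Pool.Agent.Y749.Rig.nT
      rw [hTd]
    have hlT0 : Real.log T ≠ 0 := by linarith
    rw [hnT, hr]
    field_simp
  rw [e2]
  rw [← hTd] at g1
  have hX10 : 0 ≤ X1 / nT T := by
    rw [hX1]
    exact div_nonneg (PS_nonneg fun _ _ => nr_nonneg _ _ _ _) hn.le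
  have hX20 : 0 ≤ X2 / nT T := by
    rw [hX2]
    exact div_nonneg (PS_nonneg fun _ _ => (cy_pos _).le) hn.le
  have h2 : q * r / 2 * (A * (X1 / nT T) + 4 * ρ * (X2 / nT T)) ≤
      q * (A * (K0 * (((SM (lam - d / 2) T).card : ℝ) / nT T) + δ / (4 * q * A)) + 4 * ρ * C0) := by
    have h3 : A * (X1 / nT T) + 4 * ρ * (X2 / nT T) ≤
        A * (K0 * (((SM (lam - d / 2) T).card : ℝ) / nT T) + δ / (4 * q * A)) + 4 * ρ * C0 := by
      have h4 := mul_le_mul_of_nonneg_left g3 hA0.le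
      have h5 := mul_le_mul_of_nonneg_left g2 (by positivity : 0 ≤ 4 * ρ)
      linarith
    have h6 : 0 ≤ A * (X1 / nT T) + 4 * ρ * (X2 / nT T) := by positivity
    have h7 : q * r / 2 ≤ q := by nlinarith
    exact mul_le_mul h7 h3 h6 hq.le
  have e3 : q * (A * (K0 * (((SM (lam - d / 2) T).card : ℝ) / nT T) + δ / (4 * q * A)) + 4 * ρ * C0) =
      q * A * K0 * (((SM (lam - d / 2) T).card : ℝ) / nT T) + δ / 4 + δ / 4 := by
    rw [hρd]
    field_simp
    ring
  rw [e3] at h2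
  linarith

end Pool.Agent.Q224.AH
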