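import Pool.Agent.Q224.AH.KD

/-!
# Project AH, job SC: change of scale
-/

set_option autoImplicit false

namespace Pool.Agent.Q224.AH

open MeasureTheory Filter Topology Set Pool.Agent.Q260.AH

theorem tent_diff {R L L' t : ℝ} (hR : 0 < R) (hL : 0 < L) (h1 : L / 2 ≤ L') (h2 : L' ≤ 2 * L)
    (ht : 0 ≤ t) : |max 0 (R - t / L) - max 0 (R - t / L')| ≤
      4 * R * Real.exp (4 * R) * |L' / L - 1| * Real.exp (-(2 * (1 / L)) * t) := by
  have hL' : 0 < L' := by linarith
  have hE : 0 < Real.exp (-(2 * (1 / L)) * t) := Real.exp_pos _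
  have hE4 : 0 < Real.exp (4 * R) := Real.exp_pos _
  have hR4 : 0 ≤ 4 * R * Real.exp (4 * R) * |L' / L - 1| * Real.exp (-(2 * (1 / L)) * t) := by
    positivity
  rcases le_or_gt (2 * R * L) t with h | h
  · have e1 : R ≤ t / L := by
      rw [le_div_iff₀ hL]
      have : 0 < R * L := mul_pos hR hL
      linarith
    have e2 : R ≤ t / L' := by
      rw [le_div_iff₀ hL']
      have : R * L' ≤ R * (2 * L) := mul_le_mul_of_nonneg_left h2 hR.le
      linarith
    rw [max_eq_left (by linarith), max_eq_left (by linarith), sub_self, abs_zero]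
    exact hR4
  · have e1 : |max 0 (R - t / L) - max 0 (R - t / L')| ≤ |(R - t / L) - (R - t / L')| := by
      rw [max_comm 0, max_comm 0]
      exact abs_max_sub_max_le_abs _ _ _
    have e2 : (R - t / L) - (R - t / L') = -(t / L' * (L' / L - 1)) := by
      field_simp
      ring
    have e3 : t / L' ≤ 4 * R := by
      rw [div_le_iff₀ hL']
      have : 4 * R * (L / 2) ≤ 4 * R * L' := mul_le_mul_of_nonneg_left h1 (by linarith)
      linarith
    rw [e2, abs_neg, abs_mul, abs_of_nonneg (div_nonneg ht hL'.le)] at e1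
    have e4 : t / L' * |L' / L - 1| ≤ 4 * R * |L' / L - 1| :=
      mul_le_mul_of_nonneg_right e3 (abs_nonneg _)
    have e5 : 1 ≤ Real.exp (4 * R) * Real.exp (-(2 * (1 / L)) * t) := by
      rw [← Real.exp_add, Real.one_le_exp_iff]
      have e6 : 4 * R + -(2 * (1 / L)) * t = 2 * (2 * R - t / L) := by ring
      rw [e6]
      have e7 : t / L ≤ 2 * R := by
        rw [div_le_iff₀ hL]
        exact h.le
      linarith
    have e8 : 0 ≤ 4 * R * |L' / L - 1| := by positivity
    calc _ ≤ _ := e1
      _ ≤ _ := e4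
      _ = 4 * R * |L' / L - 1| * 1 := by ring
      _ ≤ 4 * R * |L' / L - 1| * (Real.exp (4 * R) * Real.exp (-(2 * (1 / L)) * t)) :=
        mul_le_mul_of_nonneg_left e5 e8
      _ = _ := by ring

theorem t_SC : S_SC := by
  intro R hR
  refine ⟨4 * R * Real.exp (4 * R), by positivity, ?_⟩
  intro ι B w g L L' hL h1 h2
  have hL' : 0 < L' := by linarith
  have k1 := PK_int B w g (tent_int (R := R) hL) fun v => kt_eq hR hL v
  have k2 := PK_int B w g (tent_int (R := R) hL') fun v => kt_eq hR hL' v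
  have k3 : PK B w g (Kc (1 / L)) =
      2 * ∫ t in Ioi (0 : ℝ), Real.exp (-(2 * (1 / L)) * t) * SS B w g t :=
    PK_int B w g (exp_int (by positivity)) fun v => kc_eq (by positivity) v
  have i1 := int_SS B w g (tent_int (R := R) hL)
  have i2 := int_SS B w g (tent_int (R := R) hL')
  have i3 := int_SS B w g (exp_int (x := 1 / L) (by positivity))
  rw [k1, k2, k3, ← mul_sub, ← integral_sub i1 i2, abs_mul, abs_of_pos (by norm_num : (0 : ℝ) < 2)]
  have h5 : |∫ t in Ioi (0 : ℝ), (max 0 (R - t / L) * SS B w g t -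
        max 0 (R - t / L') * SS B w g t)| ≤
      ∫ t in Ioi (0 : ℝ), (4 * R * Real.exp (4 * R) * |L' / L - 1|) *
        (Real.exp (-(2 * (1 / L)) * t) * SS B w g t) := by
    rw [← Real.norm_eq_abs]
    refine norm_integral_le_of_norm_le (i3.const_mul _) ?_
    refine (ae_restrict_iff' measurableSet_Ioi).2 (ae_of_all _ fun t ht => ?_)
    rw [← sub_mul, Real.norm_eq_abs, abs_mul, abs_of_nonneg (SS_nonneg B w g t), ← mul_assoc]
    exact mul_le_mul_of_nonneg_right (tent_diff hR hL h1 h2 (le_of_lt ht)) (SS_nonneg B w g t)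
  rw [integral_const_mul] at h5
  linarith

end Pool.Agent.Q224.AH
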