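import Pool.Agent.Q224.AH.GBg

/-!
# Project GW, job ZP: the block at zero is harmless
-/

set_option autoImplicit false

namespace Pool.Agent.Q224.AH

open MeasureTheory Filter Topology Set Pool.Agent.Q260.AH
open Pool.Agent.Y749.Rig (ZZ mm nT)
open Pool.Agent.Q260.GM (gd LL kk Dl L2psi kT ev_pos ev_L gd_cont gd_nonneg gd_int mean_bdd r_lim
  T_top DD)

/-- linear growth of the integrated density, with a constant independent of the length -/
theorem gd_lin (hRH : RiemannHypothesis) {a : ℝ} (ha : 0 < a) : ∃ C : ℝ, 0 < C ∧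
    ∀ Y : ℝ, 0 < Y → ∀ᶠ κ : ℝ in 𝓝[>] 0, ∫ y in (0 : ℝ)..Y, gd κ a y ≤ C * Y := by
  obtain ⟨C, hC, h⟩ := mean_bdd hRH (a1 := a / 2) (a2 := 2 * a) (by positivity) (by linarith)
  refine ⟨4 * C, by positivity, fun Y hY => ?_⟩
  filter_upwards [(T_top hY).eventually h, (r_lim hY).eventually (le_mem_nhds (show (1 / 2 : ℝ) < 1 by norm_num)),
    (r_lim hY).eventually (ge_mem_nhds (show (1 : ℝ) < 2 by norm_num)), ev_pos, ev_L 1,
    (T_top hY).eventually_ge_atTop 10] with κ h1 h2 h3 hκ hL hT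
  have hLp : 0 < LL κ := by linarith
  have hlT : 1 < Real.log (Y / κ) := Pool.Agent.Y749.Rig.one_lt_log (by linarith)
  have hlTp : 0 < Real.log (Y / κ) := by linarith
  have h4 := h1 (a * (Real.log (Y / κ) / LL κ)) ⟨by nlinarith, by nlinarith⟩
  have e1 : a * (Real.log (Y / κ) / LL κ) / Real.log (Y / κ) = a / LL κ := by
    field_simp
  rw [e1] at h4
  rw [gd_int hκ]
  have h5 : Real.log (Y / κ) ^ 2 ≤ 4 * LL κ ^ 2 := by
    rw [div_le_iff₀ hLp] at h3
    nlinarith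
  calc κ / LL κ ^ 2 * ∫ t in (0 : ℝ)..(Y / κ), DD (a / LL κ) t ^ 2 ≤
        κ / LL κ ^ 2 * (C * (Y / κ * (4 * LL κ ^ 2))) := by
        apply mul_le_mul_of_nonneg_left _ (by positivity)
        refine h4.trans ?_
        gcongr
    _ = 4 * C * Y := by field_simp

theorem t_ZP (h1 : S_WAg) (h2 : S_GBg) (_h3 : S_BL) : S_ZP := by
  intro hRH w R c l hw hl hpos p q δ hp hpq hδ
  rcases hp.lt_or_eq with hp0 | hp0
  · exact hpos p q δ hp0 hpq hδ
  subst hp0
  have hq : 0 < q := hpq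
  obtain ⟨C1, hC1, hg1⟩ := gd_lin hRH (a := 1) one_pos
  -- the parameter of the approximation
  obtain ⟨ε, hε0, hε1, hε2⟩ : ∃ ε : ℝ, 0 < ε ∧ ε ≤ 1 ∧ 2 * ε * ((C1 + 1) * q) ≤ δ / 4 := by
    refine ⟨min 1 (δ / (8 * ((C1 + 1) * q))), by positivity, min_le_left _ _, ?_⟩
    have h4 : min 1 (δ / (8 * ((C1 + 1) * q))) ≤ δ / (8 * ((C1 + 1) * q)) := min_le_right _ _
    have hX : 0 < (C1 + 1) * q := by positivity
    have h5 := mul_le_mul_of_nonneg_right h4 hX.le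
    have e : δ / (8 * ((C1 + 1) * q)) * ((C1 + 1) * q) = δ / 8 := by
      field_simp
    rw [e] at h5
    linarith
  obtain ⟨N, cc, hA⟩ := h1 w R ε hw hε0
  -- the constants for the other exponents
  have hex : ∀ k : ℕ, ∃ C : ℝ, 0 < C ∧ ∀ Y : ℝ, 0 < Y → ∀ᶠ κ : ℝ in 𝓝[>] 0,
      ∫ y in (0 : ℝ)..Y, gd κ (k + 1) y ≤ C * Y := fun k => gd_lin hRH (by positivity)
  choose Ck hCk hgk using hex
  obtain ⟨M, hM⟩ : ∃ M : ℝ, M = ∑ k ∈ Finset.range N, |cc k| * Ck k := ⟨_, rfl⟩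
  have hM0 : 0 ≤ M := by
    rw [hM]
    exact Finset.sum_nonneg fun k _ => mul_nonneg (abs_nonneg _) (hCk k).le
  obtain ⟨p, hp0, hpq', hp1⟩ : ∃ p : ℝ, 0 < p ∧ p < q ∧ (M + |w 0| + |c|) * p ≤ δ / 4 := by
    obtain ⟨X, hX⟩ : ∃ X : ℝ, X = M + |w 0| + |c| + 1 := ⟨_, rfl⟩
    have hX0 : 0 < X := by rw [hX]; positivity
    refine ⟨min (q / 2) (δ / (4 * X)), by positivity, (min_le_left _ _).trans_lt (by linarith), ?_⟩
    have h4 : min (q / 2) (δ / (4 * X)) ≤ δ / (4 * X) := min_le_right _ _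
    have h5 := mul_le_mul_of_nonneg_left h4 hX0.le
    have e : X * (δ / (4 * X)) = δ / 4 := by field_simp
    rw [e] at h5
    have h6 : 0 < min (q / 2) (δ / (4 * X)) := by positivity
    nlinarith
  have hδ8 : 0 < δ / 8 := by positivity
  have e1 : ∀ᶠ κ : ℝ in 𝓝[>] 0, ∀ k ∈ Finset.range N,
      ∫ y in (0 : ℝ)..p, gd κ (k + 1) y ≤ Ck k * p :=
    (Filter.eventually_all_finset _).2 fun k _ => hgk k p hp0
  filter_upwards [hl e1, hl (hg1 q hq), hl (gd_ev hRH N), hpos p q (δ / 8) hp0 hpq' hδ8,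
    hl (h2 hRH w R ε 0 q (δ / 8) N cc hw hε0 hε1 hA le_rfl hpq hδ8),
    hl (h2 hRH w R ε p q (δ / 8) N cc hw hε0 hε1 hA hp0.le hpq' hδ8)] with κ g1 g2 g3 g4 g5 g6
  obtain ⟨⟨hκ, hL⟩, hc⟩ := g3
  have hgcc : Continuous (gc N cc κ) := by
    unfold gc
    exact continuous_finsetSum _ fun k hk => (hc k (Finset.mem_range.1 hk).le).const_mul (cc k)
  have hc1 : Continuous (gd κ 1) := by
    have := hc 0 (Nat.zero_le _)
    simpa using this
  have s1 := intervalIntegral.integral_add_adjacent_intervals (hgcc.intervalIntegrable (μ := volume) 0 p)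
    (hgcc.intervalIntegrable (μ := volume) p q)
  have s2 : ∫ y in (0 : ℝ)..p, gc N cc κ y ≤ M * p := by
    rw [gc_int hc, hM, Finset.sum_mul]
    refine Finset.sum_le_sum fun k hk => ?_
    have h5 : 0 ≤ ∫ y in (0 : ℝ)..p, gd κ (k + 1) y :=
      intervalIntegral.integral_nonneg hp0.le fun y _ => gd_nonneg κ _ y
    calc cc k * ∫ y in (0 : ℝ)..p, gd κ (k + 1) y ≤ |cc k| * ∫ y in (0 : ℝ)..p, gd κ (k + 1) y :=
          mul_le_mul_of_nonneg_right (le_abs_self _) h5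
      _ ≤ |cc k| * (Ck k * p) := mul_le_mul_of_nonneg_left (g1 k hk) (abs_nonneg _)
      _ = _ := by ring
  have s3 : ∫ y in (0 : ℝ)..q, (gd κ 1 y + 1) ≤ (C1 + 1) * q := by
    rw [intervalIntegral.integral_add (hc1.intervalIntegrable _ _) intervalIntegrable_const,
      intervalIntegral.integral_const, smul_eq_mul, mul_one]
    linarith
  have s4 : ∫ y in p..q, (gd κ 1 y + 1) ≤ ∫ y in (0 : ℝ)..q, (gd κ 1 y + 1) :=
    intervalIntegral.integral_mono_interval hp0.le hpq'.le le_rfl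
      (ae_of_all _ fun y => by have := gd_nonneg κ 1 y; show (0 : ℝ) ≤ gd κ 1 y + 1; linarith)
      ((hc1.add continuous_const).intervalIntegrable _ _)
  have s5 := (abs_le.1 g5).1
  have s6 := (abs_le.1 g6).2
  have s7 := mul_le_mul_of_nonneg_left s3 hε0.le
  have s8 := mul_le_mul_of_nonneg_left s4 hε0.le
  have s9 : w 0 / 4 * p ≤ |w 0| * p := by
    have := le_abs_self (w 0)
    have := abs_nonneg (w 0)
    nlinarith
  have s10 : -c * p ≤ |c| * p := mul_le_mul_of_nonneg_right (neg_le_abs c) hp0.le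
  nlinarith

end Pool.Agent.Q224.AH
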